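import Pool.Agent.Results.MP_7e5527_ag.CommonFactors
import Pool.Agent.Results.MP_7e5527_ag.DivisorSums

/-!
# Rational points given by divisors of the values of multiplicative functions have no complex multiplication of bounded
# height

Let `V` be a polarised variation of Hodge structure over an open subset of `ℂ ^ n` (a chart of `S`), with infinite
monodromy, of any weight and with any period map.

Let `F_0, …, F_n` be positive multiplicative functions of at most polynomial growth with `F_i(p) ≤ M p` for the large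
primes `p`, with different values at different large primes; for example Euler's function or the sum of the divisors. There
are `η > 0` and `ρ < 1`, which depend only on `n`, such that for all `V`, `k ≥ 2`, `F_i`, all `μ < b < 1` and
`0 ≤ c < 2 b - 1` and all large `N`, the following holds for all but `N ^ (n + 1) exp (-(log N)^c)` of the tuples
`(m_0, …, m_n)` of positive integers `≤ N`. Let `v` be a tuple of integers `v_i ≥ exp ((log N)^b)` such that
`gcd(v_i, F_i(m_i)) ≥ v_j^ρ` for all `i`, `j`, or such that `v_i ≥ v_j^ρ` and `v_i = p s + q t` with divisors `s`, `t` of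
`F_i(m_i)` and integers `|p|, |q| ≤ exp ((log N)^μ)`. For ALL integers `x_i ≠ 0` and `y_i` which are bounded in absolute
value by `v_l ^ η` for some `l`, the following holds for the integers `α_i = x_i v_i + y_i`, `α_0 ≠ 0`, and the rational
point `a = (α_1 / α_0, …, α_n / α_0)`, if it is in `U`, of norm at most `k` and at distance at least `1 / k` from the
complement of `U`: the matrices which commute with the endomorphisms of height at most `max |α_i| ^ k` of the Hodge
structure `V_a` do NOT commute with each other; so `a` is not a CM-point whose complex multiplication is by endomorphisms of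
such height.

Proof. This is the case `M₀ = 0` of `CommonFactors` and `DivisorSums` of `MP_7e5527_ag`: the rational points with such
complex multiplication lie on few hypersurfaces (`LinkedPoints`, and for the zero structure `M₀` already
`BoundedEndomorphisms` of the starting library); and sets of tuples of integers with a power saving contain such `α` for
few `m` only.
-/

set_option autoImplicit false

namespace Pool.Agent.Results.MP_2794d1_ag.DivisorsNoCM

open Pool.Agent.N733.TG (LM lm_totient lm_sigma)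
open Pool.Agent.U536.CF (CommonT commonT_of_dvd)
open Pool.Agent.U536.DS (CombT combT_pm)
open Pool.Agent.U543.HT (Polarized Variation Auts)
open Pool.Agent.U543.GD (Inner)
open Pool.Agent.U543.LK (Commutant Corr)
open Pool.Agent.U86.LQ (point NotLinked)

variable {ι : Type} [Fintype ι] [DecidableEq ι]

/-- the images in `End V` of the Hodge tensors of `V ⊗ V` with coordinates of absolute value at most `H`: the endomorphisms
of the Hodge structure `V` with the period matrix `M` -/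
def Endos (wt : ℤ) (w : ι → ℤ) (S : Matrix ι ι ℤ) (M : Matrix ι ι ℂ) (H : ℝ) : Set (Matrix ι ι ℤ) :=
  Corr wt w S M (Fin.elim0 : Fin 0 → ℤ) 0 0 H

/-- the matrices which commute with the endomorphisms of height at most `H` commute with each other -/
def HasCM (wt : ℤ) (w : ι → ℤ) (S : Matrix ι ι ℤ) (M : Matrix ι ι ℂ) (H : ℝ) : Prop :=
  ∀ g ∈ Commutant (Endos wt w S M H), ∀ c ∈ Commutant (Endos wt w S M H), g * c = c * g

/-- if the point `x = (α_1 / α_0, …, α_n / α_0)` is in `U`, of norm at most `k` and at distance at least `1 / k` from the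
complement of `U`, then `V_x` has no complex multiplication by endomorphisms of height at most `|α_i| ^ k`, for all `i` -/
def NoCM {n : ℕ} (wt : ℤ) (w : ι → ℤ) (S : Matrix ι ι ℤ) (U : Set (Fin n → ℂ))
    (P : (Fin n → ℂ) → Matrix ι ι ℂ) (k : ℕ) (α : Fin (n + 1) → ℤ) : Prop :=
  point α ∈ Inner U k → ∀ i, ¬ HasCM wt w S (P (point α)) (|(α i : ℝ)| ^ k)

lemma polarized_zero (wt : ℤ) : Polarized wt (Fin.elim0 : Fin 0 → ℤ) 0 (0 : Matrix (Fin 0) (Fin 0) ℂ) :=
  ⟨Fin.elim0, 0, 0, isUnit_of_subsingleton _, fun j => j.elim0, fun j => j.elim0, Subsingleton.elim _ _,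
    Subsingleton.elim _ _⟩

lemma noCM_of {n : ℕ} (hn : 1 ≤ n) {wt : ℤ} {w : ι → ℤ} {S : Matrix ι ι ℤ} {U : Set (Fin n → ℂ)}
    {P : (Fin n → ℂ) → Matrix ι ι ℂ} (hV : Variation wt w S U P) (hinf : (Auts U P S).Infinite) {k : ℕ} (hk : 2 ≤ k)
    {α : Fin (n + 1) → ℤ} (h : NotLinked wt w S U P k (Fin.elim0 : Fin 0 → ℤ) 0 α) : NoCM wt w S U P k α := by
  have : Nonempty (Fin n) := ⟨⟨0, hn⟩⟩
  intro hin i hcm
  exact h hin i ((Pool.Agent.Results.MP_7e5527_ag.LinkedPoints.result (Fin n) ι wt w S U P hV hinf).2.2.2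
    (P (point α)) 0 Fin.elim0 0 k _ hk hcm)

/-- **Theorem.** Let `n ≥ 1`. There are `η > 0` and `0 < ρ < 1` with the following property. Let `V` be a polarised
variation of Hodge structure of weight `wt` on the open subset `U` of `ℂ ^ n` (`Variation`), such that the group
`Auts U P S` is infinite, let `k ≥ 2`, let `F_0, …, F_n` be positive multiplicative functions of polynomial growth, which
are injective and at most `M p` at the large primes `p` (`LM`), and `μ < b < 1`, `0 ≤ c < 2 b - 1`. For all large `N`, for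
all but `N ^ (n + 1) exp (-(log N)^c)` of the tuples `m` of positive integers `m_0, …, m_n ≤ N`, for EVERY tuple `v` of
integers `v_i ≥ exp ((log N)^b)`, (1) with `gcd(v_i, F_i(m_i)) ≥ v_j ^ ρ` for all `i`, `j`, (2) with `v_i ≥ v_j ^ ρ` and
`v_i = p s + q t`, for divisors `s`, `t` of `F_i(m_i)` and integers `|p|, |q| ≤ exp ((log N)^μ)`, and ALL integers
`x_i ≠ 0`, `y_i`, of absolute value at most `v_l ^ η` for some `l`, the rational point `a = (α_1 / α_0, …, α_n / α_0)`,
where `α_i = x_i v_i + y_i`, `α_0 ≠ 0`, has the property `NoCM`: if `a` is in `U`, of norm at most `k` and at distance at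
least `1 / k` from the complement of `U`, then the matrices which commute with the endomorphisms of `V_a` of height at most
`max |α_i| ^ k` do not commute with each other. Euler's function and the sum of the divisors are examples of the `F_i`, and
the tuples of divisors, resp. of sums or differences of two divisors, `v_i` of `F_i(m_i)` with `v_i ≥ exp ((log N)^b)` and
`v_i ≥ v_j ^ ρ` for all `i`, `j` are examples of `v`. -/
theorem result (n : ℕ) (hn : 1 ≤ n) :
    (∃ η ρ : ℝ, 0 < η ∧ 0 < ρ ∧ ρ < 1 ∧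
      ∀ (ι : Type) [Fintype ι] [DecidableEq ι] (wt : ℤ) (w : ι → ℤ) (S : Matrix ι ι ℤ) (U : Set (Fin n → ℂ))
        (P : (Fin n → ℂ) → Matrix ι ι ℂ), Variation wt w S U P → (Auts U P S).Infinite →
      ∀ k : ℕ, 2 ≤ k → ∀ F : Fin (n + 1) → ℕ → ℕ, (∀ i, LM (F i)) → ∀ b c : ℝ, b < 1 → 0 ≤ c → c < 2 * b - 1 →
      ∃ N₀ : ℕ, ∀ N : ℕ, N₀ ≤ N →
      ({m : Fin (n + 1) → ℕ | (∀ i, 1 ≤ m i ∧ m i ≤ N) ∧ ¬ ∀ v : Fin (n + 1) → ℕ, CommonT F b ρ N m v →
        ∀ x y α : Fin (n + 1) → ℤ,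
          (∃ l, ∀ i, x i ≠ 0 ∧ |(x i : ℝ)| ≤ (v l : ℝ) ^ η ∧ |(y i : ℝ)| ≤ (v l : ℝ) ^ η) →
        (∀ i, α i = x i * (v i : ℤ) + y i) → α 0 ≠ 0 → NoCM wt w S U P k α}.ncard : ℝ) ≤
        (N : ℝ) ^ (n + 1) * Real.exp (-(Real.log N ^ c))) ∧
    (∃ η ρ : ℝ, 0 < η ∧ 0 < ρ ∧ ρ < 1 ∧
      ∀ (ι : Type) [Fintype ι] [DecidableEq ι] (wt : ℤ) (w : ι → ℤ) (S : Matrix ι ι ℤ) (U : Set (Fin n → ℂ))
        (P : (Fin n → ℂ) → Matrix ι ι ℂ), Variation wt w S U P → (Auts U P S).Infinite →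
      ∀ k : ℕ, 2 ≤ k → ∀ F : Fin (n + 1) → ℕ → ℕ, (∀ i, LM (F i)) →
      ∀ μ b c : ℝ, μ < b → b < 1 → 0 ≤ c → c < 2 * b - 1 →
      ∃ N₀ : ℕ, ∀ N : ℕ, N₀ ≤ N →
      ({m : Fin (n + 1) → ℕ | (∀ i, 1 ≤ m i ∧ m i ≤ N) ∧ ¬ ∀ v : Fin (n + 1) → ℕ, CombT F b μ ρ N m v →
        ∀ x y α : Fin (n + 1) → ℤ,
          (∃ l, ∀ i, x i ≠ 0 ∧ |(x i : ℝ)| ≤ (v l : ℝ) ^ η ∧ |(y i : ℝ)| ≤ (v l : ℝ) ^ η) →
        (∀ i, α i = x i * (v i : ℤ) + y i) → α 0 ≠ 0 → NoCM wt w S U P k α}.ncard : ℝ) ≤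
        (N : ℝ) ^ (n + 1) * Real.exp (-(Real.log N ^ c))) ∧
    (LM Nat.totient ∧ LM (fun m => ∑ d ∈ m.divisors, d)) ∧
    (∀ (F : Fin (n + 1) → ℕ → ℕ) (b ρ : ℝ) (N : ℕ) (m v : Fin (n + 1) → ℕ),
      (∀ i, Real.exp (Real.log N ^ b) ≤ (v i : ℝ)) → (∀ i, v i ∣ F i (m i)) →
      (∀ i j, (v j : ℝ) ^ ρ ≤ (v i : ℝ)) → CommonT F b ρ N m v) ∧
    ∀ (F : Fin (n + 1) → ℕ → ℕ) (b μ ρ : ℝ) (N : ℕ) (m v : Fin (n + 1) → ℕ),
      (∀ i, Real.exp (Real.log N ^ b) ≤ (v i : ℝ)) →
      (∀ i, ∃ s t : ℕ, s ∣ F i (m i) ∧ t ∣ F i (m i) ∧ (v i = s + t ∨ v i = s - t ∨ v i = s)) →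
      (∀ i j, (v j : ℝ) ^ ρ ≤ (v i : ℝ)) → CombT F b μ ρ N m v := by
  refine ⟨?_, ?_, ⟨lm_totient, lm_sigma⟩, fun F b ρ N m v h1 h2 h3 => commonT_of_dvd h1 h2 h3,
    fun F b μ ρ N m v h1 h2 h3 => combT_pm h1 h2 h3⟩
  · obtain ⟨η, ρ, hη, hρ0, hρ1, h⟩ := (MP_7e5527_ag.CommonFactors.result n hn).1
    refine ⟨η, ρ, hη, hρ0, hρ1, fun ι _ _ wt w S U P hV hinf k hk F hF b c hb hc hcb => ?_⟩
    obtain ⟨N₀, hN₀⟩ := h ι wt w S U P hV hinf k (by omega) F hF b c hb hc hcb
    refine ⟨N₀, fun N hN => ?_⟩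
    have h1 := hN₀ N hN 0 (Nat.zero_le _) Fin.elim0 0 0 (polarized_zero wt)
    have hfin : {m : Fin (n + 1) → ℕ | ∀ i, 1 ≤ m i ∧ m i ≤ N}.Finite := by
      refine (Set.Finite.pi' (fun _ : Fin (n + 1) => Set.finite_Icc 1 N)).subset (fun m hm i => ?_)
      exact Set.mem_Icc.2 (hm i)
    refine le_trans ((Nat.cast_le (α := ℝ)).2 (Set.ncard_le_ncard ?_ (hfin.subset fun m hm => hm.1))) h1
    intro m hm
    exact ⟨hm.1, fun h => hm.2 (fun v hv x y α hxy hα h0 => noCM_of hn hV hinf hk (h v hv x y α hxy hα h0))⟩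
  · obtain ⟨η, ρ, hη, hρ0, hρ1, h⟩ := (MP_7e5527_ag.DivisorSums.result n hn).1
    refine ⟨η, ρ, hη, hρ0, hρ1, fun ι _ _ wt w S U P hV hinf k hk F hF μ b c hμ hb hc hcb => ?_⟩
    obtain ⟨N₀, hN₀⟩ := h ι wt w S U P hV hinf k (by omega) F hF μ b c hμ hb hc hcb
    refine ⟨N₀, fun N hN => ?_⟩
    have h1 := hN₀ N hN 0 (Nat.zero_le _) Fin.elim0 0 0 (polarized_zero wt)
    have hfin : {m : Fin (n + 1) → ℕ | ∀ i, 1 ≤ m i ∧ m i ≤ N}.Finite := by
      refine (Set.Finite.pi' (fun _ : Fin (n + 1) => Set.finite_Icc 1 N)).subset (fun m hm i => ?_)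
      exact Set.mem_Icc.2 (hm i)
    refine le_trans ((Nat.cast_le (α := ℝ)).2 (Set.ncard_le_ncard ?_ (hfin.subset fun m hm => hm.1))) h1
    intro m hm
    exact ⟨hm.1, fun h => hm.2 (fun v hv x y α hxy hα h0 => noCM_of hn hV hinf hk (h v hv x y α hxy hα h0))⟩

end Pool.Agent.Results.MP_2794d1_ag.DivisorsNoCM
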