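import Pool.Agent.U543.NhGrow
import Pool.Agent.U543.LkFin

/-!
# Algebraic points near the Hodge locus and near the CM points of arbitrary variations of Hodge structure

Let `V` be a polarised variation of Hodge structure, with the lattice `ℤ ^ ι`, on a connected open set `U` of `ℂ ^ X` (a
coordinate chart of a finite covering of `S`), with infinite monodromy. The problem is about the CM points, more generally
about the points of the Hodge locus: the points `z` at which some tensor of the lattice which is not invariant under a
subgroup of finite index of the monodromy group is a Hodge tensor. Let the complexity of a point of the Hodge locus be the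
height of such a tensor of order at most `k`, and that of a CM point the height of the endomorphisms which give the
complex multiplication. For variations which are not of Shimura type it is not known that these points are few, and
they are not known to be algebraic, of bounded degree, or to be separated from each other.

We show that the algebraic points of bounded degree and of height at most `T` do not approach the Hodge locus and the CM
points, except on few hypersurfaces: for all `k` and `ε` there is `B` such that those at distance at most `T ^ (-B)` from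
a (complex) point of complexity at most `T ^ k` lie on `T ^ ε` hypersurfaces of bounded degree. More generally this
holds for the points `z` linked with any Hodge structure `M₀` from a compact set (for instance from a compact part of
some other variation), and for integral tensors which are Hodge tensors only up to `T ^ (-B)`.

For the proof we show that outside few hypersurfaces a relation between the entries of the period matrix at `s` which
holds up to `T ^ (-B)` is within `T ^ (-B')` of a relation which holds on the whole fibre over `s` of the Zariski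
closure of the period matrix. So for a tensor `v` of bounded height which is nearly a Hodge tensor the translates of `v`
by finitely many elements of the Galois group, which span all its translates, are nearly Hodge tensors. As these are
integral, their real combinations are nearly Hodge tensors relative to their norm, and by compactness the polarisation is
definite on their span. Hence the orbit of `v` is finite.
-/

namespace Pool.Agent.Results.MP_2794d1_ag.NearSpecialPoints

open Filter
open Pool.Agent.U543.GD (Height Covered IsMonodromy)
open Pool.Agent.U543.HT (Polarized Variation Auts)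
open Pool.Agent.U543.LK (Corr Commutant Linked)
open Pool.Agent.U543.NH

/-- **Algebraic points are not close to the Hodge locus and to CM points.** Let `V` be a polarised variation of Hodge
structure of weight `wt` on `U` (`Variation`: the period matrix `P x` is analytic in `x`, its `j`-th column is in
`F ^ (w j)`, and it satisfies the Riemann-Hodge bilinear relations with the integral form `S`), and let `𝒞` be a compact
set of (period matrices of) Hodge structures `M₀` of weight `wt`, polarised by `S₀` (for instance one Hodge structure, or
zero: `r = 0`). The set `NearHodge` (`NearLinked`) consists of the points `s` of `U` with coordinates in `K` of height at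
most `T`, of norm at most `k` and at distance at least `1 / k` from the complement of `U`, such that for some complex
point `z` of `U` with `|s - z| ≤ T ^ (-B)` there is an integral tensor of order at most `k` and height at most `T ^ k` of
`M₀ ⊕ V_z` which is a Hodge tensor up to `T ^ (-B)` and which has an infinite orbit under `Auts U P S` (such that `V_z`
is linked with `M₀` by Hodge tensors of order at most `k` and of height at most `T ^ k`).

(1) For every `k` and `ε > 0` there are `D`, `B`, `C` such that for all large `T`, all number fields `K` of degree at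
most `k`, embedded in `ℂ`, and all `M₀` in `𝒞` the set `NearHodge`, and if `Auts U P S` is infinite also the set
`NearLinked`, lies on at most `C T ^ ε` hypersurfaces of degree at most `D`, and has at most `D C T ^ ε N ^ (|X| - 1)`
elements, `N` being the number of elements of `K` of height at most `T`.
(2) For every function `φ → ∞` there is `ω → ∞` such that for all large `T`, `k = ω T`, `B = φ T`, and all such `K` and
`M₀` these sets lie on at most `T ^ (1 / k)` hypersurfaces of degree at most `T ^ (1 / k)`, and have at most
`T ^ (1 / k) N ^ (|X| - 1)` elements.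
(3) The set `Auts U P S` consists of the integral matrices `g` which preserve `S` and all polynomial relations over `ℂ[x]`
between the entries of `P`; the integral monodromy matrices which preserve `S` belong to it.
(4) A Hodge structure is linked with every `M₀` (by tensors of order two) if it has complex multiplication: if the
matrices which commute with its endomorphisms of height at most `H` commute with each other. -/
theorem result (X ι : Type) [Fintype X] [DecidableEq X] [Nonempty X] [Fintype ι] [DecidableEq ι] (wt : ℤ) (w : ι → ℤ)
    (S : Matrix ι ι ℤ) (U : Set (X → ℂ)) (P : (X → ℂ) → Matrix ι ι ℂ) (h : Variation wt w S U P) (r : ℕ)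
    (w₀ : Fin r → ℤ) (S₀ : Matrix (Fin r) (Fin r) ℤ) (𝒞 : Set (Matrix (Fin r) (Fin r) ℂ)) (h𝒞 : IsCompact 𝒞)
    (h𝒞' : ∀ C₀ ∈ 𝒞, Polarized wt w₀ S₀ C₀) :
    (∀ (k : ℕ) (ε : ℝ), 0 < ε → ∃ (D : ℕ) (B C T₀ : ℝ), 0 ≤ C ∧ 2 ≤ T₀ ∧ ∀ T, T₀ ≤ T →
      ∀ (K : Type) [Field K] [NumberField K], Module.finrank ℚ K ≤ k → ∀ (io : K →+* ℂ), ∀ C₀ ∈ 𝒞,
        ∀ E : Set (X → K), (E = NearHodge wt w S U P k B K io w₀ C₀ T ∨
          ((Auts U P S).Infinite ∧ E = NearLinked wt w S U P k B K io w₀ C₀ T)) →
        Covered D ⌊C * T ^ ε⌋₊ ((fun (s : X → K) j => io (s j)) '' E) ∧ E.Finite ∧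
          (E.ncard : ℝ) ≤ D * C * T ^ ε * ((Height K T).ncard : ℝ) ^ (Fintype.card X - 1)) ∧
    (∀ φ : ℝ → ℝ, Tendsto φ atTop atTop → ∃ (ω : ℝ → ℕ) (T₀ : ℝ), Tendsto ω atTop atTop ∧ Monotone ω ∧
      ∀ T, T₀ ≤ T → 0 < ω T ∧
      ∀ (K : Type) [Field K] [NumberField K], Module.finrank ℚ K ≤ ω T → ∀ (io : K →+* ℂ), ∀ C₀ ∈ 𝒞,
        ∀ E : Set (X → K), (E = NearHodge wt w S U P (ω T) (φ T) K io w₀ C₀ T ∨
          ((Auts U P S).Infinite ∧ E = NearLinked wt w S U P (ω T) (φ T) K io w₀ C₀ T)) →
        Covered ⌊T ^ ((ω T : ℝ)⁻¹)⌋₊ ⌊T ^ ((ω T : ℝ)⁻¹)⌋₊ ((fun (s : X → K) j => io (s j)) '' E) ∧ E.Finite ∧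
          (E.ncard : ℝ) ≤ T ^ ((ω T : ℝ)⁻¹) * ((Height K T).ncard : ℝ) ^ (Fintype.card X - 1)) ∧
    (∀ g : Matrix ι ι ℤ, IsMonodromy U P (g.map (Int.cast : ℤ → ℂ)) → g * S * g.transpose = S → g ∈ Auts U P S) ∧
    ∀ (M : Matrix ι ι ℂ) (C₀ : Matrix (Fin r) (Fin r) ℂ) (k : ℕ) (H : ℝ), 2 ≤ k →
      (∀ g ∈ Commutant (Corr wt w S M w₀ C₀ 0 H), ∀ c ∈ Commutant (Corr wt w S M w₀ C₀ 0 H), g * c = c * g) →
      Linked wt w S M w₀ C₀ k H := by
  refine ⟨fun k ε hε => ?_, fun φ hφ => ?_, fun _ hg hS =>
    ⟨Pool.Agent.U543.GD.gal_of_monodromy h.family.isPreconnected h.family.analytic hg, hS⟩,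
    fun _ _ _ _ hk hcm => Pool.Agent.U543.LK.linked_of_cm hk hcm⟩
  · obtain ⟨D, B, C, T₀, hC, hT₀, H⟩ := near_fix h k ε hε h𝒞 h𝒞'
    refine ⟨D, B, C, T₀, hC, hT₀, fun T hT K _ _ hK io C₀ hC₀ E hE => ?_⟩
    obtain ⟨e1, e2, e3⟩ := H T hT K hK io C₀ hC₀
    have hsub : E ⊆ NearHodge wt w S U P k B K io w₀ C₀ T := by
      rcases hE with rfl | ⟨hinf, rfl⟩
      · exact subset_rfl
      · exact linked_sub h hinf K io w₀ C₀ (by linarith)
    refine ⟨Pool.Agent.Y124.Cov.mono e1 le_rfl le_rfl (Set.image_mono hsub), e2.subset hsub, le_trans ?_ e3⟩
    exact_mod_cast Set.ncard_le_ncard hsub e2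
  · obtain ⟨ω, T₀, h1, h2, H⟩ := near_grow h h𝒞 h𝒞' φ hφ
    refine ⟨ω, max T₀ 1, h1, h2, fun T hT => ⟨(H T ((le_max_left _ _).trans hT)).1, fun K _ _ hK io C₀ hC₀ E hE => ?_⟩⟩
    have hT1 : 1 ≤ T := (le_max_right _ _).trans hT
    obtain ⟨e1, e2, e3⟩ := (H T ((le_max_left _ _).trans hT)).2 K hK io C₀ hC₀
    have hsub : E ⊆ NearHodge wt w S U P (ω T) (φ T) K io w₀ C₀ T := by
      rcases hE with rfl | ⟨hinf, rfl⟩
      · exact subset_rfl
      · exact linked_sub h hinf K io w₀ C₀ (by linarith)
    refine ⟨Pool.Agent.Y124.Cov.mono e1 le_rfl le_rfl (Set.image_mono hsub), e2.subset hsub, le_trans ?_ e3⟩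
    exact_mod_cast Set.ncard_le_ncard hsub e2

end Pool.Agent.Results.MP_2794d1_ag.NearSpecialPoints
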