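import Mathlib
import Pool.Agent.U980.HL.Integral

/-!
# CM-points are the points isolated by one integral class of `V ⊗ V`; finitely many have bounded
complexity, and they all carry exceptional classes of degree two

A Hodge structure on `V = ℚ ^ n` of any weight, polarized by a rational bilinear form `Q`, is given by
the endomorphism `j` of `V_ℝ` which is multiplication by `i (p - q)` on `V ^ (p, q)` (`Polarized Q j`):
the circle acts through `h (e ^ (i θ)) = exp (θ j)`, it respects `Q`, and `Q (x, C y)` is symmetric
and positive definite for the Weil operator `C = h (i) = exp (π j / 2)`. The forms on `V` of any degree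
`d` with rational (or integral) coefficients which are fixed by the circle are the Hodge forms
(`IsHodge`), i.e. the Hodge tensors. The point `j` is a CM-point (`IsCM`) if its Mumford-Tate group is
a torus, i.e. if `j` is a real combination of commuting rational matrices. An integral form `c`
isolates `j` (`Isolates Q c j`) if it is a Hodge form for `j`, and for no other Hodge structure near `j`
polarized by `Q`. Note that `- tr (j ^ 2)` is the sum of `(p - q) ^ 2 h ^ (p, q)`.

**Theorem.** (1) For a polarized Hodge structure `j` of any weight the following are equivalent: `j` is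
a CM-point; some integral form of degree *two* isolates `j`; some integral form of some degree isolates
`j`; `j` is isolated among the Hodge structures polarized by `Q` for which all Hodge forms of `j` remain
Hodge forms (`Keeps`).

(2) For all degrees `d` and bounds `B`, `W`: only finitely many Hodge structures `j` polarized by `Q`
with `- tr (j ^ 2) ≤ W` are isolated by an integral form of degree `d` with coefficients at most `B` in
absolute value.

(3) Let `φ s`, `s ∈ S`, be a connected continuous family of Hodge structures polarized by `Q`, which is
not constant, and `g` a Hodge generic point of it. At each CM-point `s` there is an integral form of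
degree two which isolates `φ s` and is not a Hodge form at `g`.

In particular, by (1) and (2), the complexity of a CM-point (the least `B` such that an integral form of
degree two with coefficients at most `B` isolates it) takes every value only finitely often in a period
domain; and by (3), for every polarizable variation of Hodge structure on `S` with nonconstant period
map, all CM-points of `S` lie in the Hodge locus of `V ⊗ V`.
-/

set_option autoImplicit false

namespace Pool.Agent.Results.MP_2794d1_ag.OneClassIsolatesCM

open Pool.Agent.U980.HL

theorem result (n : ℕ) (Q : Matrix (Fin n) (Fin n) ℚ) :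
    (∀ j : Matrix (Fin n) (Fin n) ℝ, Polarized Q j → List.TFAE [
      IsCM j,
      ∃ c : (Fin 2 → Fin n) → ℤ, Isolates Q c j,
      ∃ (d : ℕ) (c : (Fin d → Fin n) → ℤ), Isolates Q c j,
      Isolated Q j (Keeps j)]) ∧
    (∀ (d : ℕ) (B : ℤ) (W : ℝ), {j : Matrix (Fin n) (Fin n) ℝ | Polarized Q j ∧
      -(j * j).trace ≤ W ∧
      ∃ c : (Fin d → Fin n) → ℤ, (∀ b, |c b| ≤ B) ∧ Isolates Q c j}.Finite) ∧
    (∀ (S : Type) [TopologicalSpace S] [PreconnectedSpace S]
      (φ : S → Matrix (Fin n) (Fin n) ℝ), IsFamily Q φ → ∀ g s : S,
      (∀ s', Keeps (φ g) (φ s')) → IsCM (φ s) → (∃ s', φ s' ≠ φ s) →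
      ∃ c : (Fin 2 → Fin n) → ℤ, Isolates Q c (φ s) ∧ ¬ IsHodge (φ g) (fun b => (c b : ℚ))) := by
  refine ⟨fun j hp => cm_tfae_int hp, finite_int Q, fun S _ _ φ hφ g s hg hcm hne => ?_⟩
  obtain ⟨c, h1, h2⟩ := ((cm_tfae_int (hφ.2 s)).out 0 1).1 hcm
  refine ⟨c, ⟨h1, h2⟩, fun h3 => ?_⟩
  obtain ⟨s', hs'⟩ := hne
  exact hs' (const_of_isolated h2 hφ.1 hφ.2 (fun t => hg t 2 _ h3) ⟨s, rfl⟩ s')

end Pool.Agent.Results.MP_2794d1_ag.OneClassIsolatesCM
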