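import Pool.Agent.Results.MP_2794d1_ag.BoundedEndomorphisms
import Pool.Agent.U265.VH.Law

/-!
# No special points of polynomial complexity near the points of a curve, outside a set of Hausdorff dimension zero

Let `U` be a nonempty connected open subset of `ℂ` (a chart of a curve `S`), and `F_j` matrices of analytic functions on `U`, for
example bases of the steps of the Hodge filtration of a variation of Hodge structure in a flat basis, and `Γ` a group of matrices,
for example the monodromy group, with the hypotheses of the starting file `BoundedEndomorphisms` (`RegularM`, `MonInv`). An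
endomorphism at `s` is a matrix `M` which preserves the column spaces of all `F_j(s)` (`Pres`). At a general point `s` it is
expected that also all `γ F_j(s)`, `γ ∈ Γ`, are preserved by `M`.

**Theorem.** There is a set `E` of complex numbers of Hausdorff dimension ZERO such that for all `x ∈ U` outside of `E`, for ALL number
fields `K` in `ℂ`, all `k` and all `σ > 0`, the following is true for all large `T`. Let `s` be ANY point of `K` of height at most `T`
with `|x - s| ≤ T ^ (-σ)`.

* Every endomorphism `M` at `s` with entries in the integers of `K` all conjugates of which are at most `T ^ k` preserves the column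
  spaces of all `γ F_j(s)`, `γ ∈ Γ` (`OnlyGeneric`).
* If `Γ` is infinite and only finitely many elements of `Γ` preserve the column spaces of all `F_j(y)`, for all `y ∈ U`, then there is
  no such `M` with distinct eigenvalues; so `s` is not a point with complex multiplication of size `T ^ k` (`NoCM`).

The conjecture of the problem (for curves `S`) says that the CM points are finite in number if the variation is not of Shimura type
(or `Φ` is not dominant); it is not known that they are not dense in `U`. By the theorem no point outside of a set of dimension zero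
is approximated, even very slowly (`σ` is arbitrarily small), by points of number fields with complex multiplication of polynomial
size. The starting file bounds the number of the special points of height at most `T` by `T ^ o(1)`.

The proof: the points `x` with a special point `s` of height at most `T` and size at most `T ^ k` within `T ^ (-σ)`, for arbitrarily
large `T`, are covered by few small disks (`Pool.Agent.N84.MD.scales` of the starting library, here for complex points, `scalesC`), and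
there are countably many number fields in `ℂ` (`countable_fields`).
-/

set_option autoImplicit false

namespace Pool.Agent.Results.MP_2794d1_ag.SpecialPointsNearAPoint

open Filter NumberField Pool.Agent Pool.Agent.Y890.MV Pool.Agent.Y890.VH

section
variable {X H J : Type} [Fintype X] [DecidableEq X] [Nonempty X] [Fintype H] [DecidableEq H] [Fintype J] [DecidableEq J]
  {r : J → ℕ}

/-- `M` is an integral matrix over `K` all conjugates of which are at most `R`. -/
def SizeLe (K : Subfield ℂ) [NumberField K] (M : Matrix H H (𝓞 K)) (R : ℝ) : Prop :=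
  ∀ i j (φ : K →+* ℂ), ‖φ (M i j : K)‖ ≤ R

/-- The complex matrix of `M`. -/
noncomputable def cm (K : Subfield ℂ) [NumberField K] (M : Matrix H H (𝓞 K)) : Matrix H H ℂ :=
  Matrix.of fun i j => ((M i j : K) : ℂ)

/-- For all large `T`, at all `K`-points `s` of height at most `T` within `T ^ (-σ)` of `x`, all endomorphisms of size at most `T ^ k`
are preserved by `Γ`. -/
def OnlyGeneric (f : Sg H J r → (X → ℂ) → ℂ) (Γ : Subgroup (GL H ℂ)) (K : Subfield ℂ) [NumberField K] (k : ℕ) (σ : ℝ)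
    (x : X → ℂ) : Prop :=
  ∀ᶠ T : ℝ in atTop, ∀ s : X → K, (∀ j, Y120.HtLe K T (s j)) → (∀ j, ‖x j - (s j : ℂ)‖ ≤ T ^ (-σ)) →
    ∀ M : Matrix H H (𝓞 K), SizeLe K M (T ^ k) → Pres (fun y => f y fun j => (s j : ℂ)) (cm K M) →
      ∀ γ ∈ Γ, Pres (act (γ : Matrix H H ℂ) fun y => f y fun j => (s j : ℂ)) (cm K M)

/-- For all large `T`, no `K`-point `s` of height at most `T` within `T ^ (-σ)` of `x` has an endomorphism of size at most `T ^ k`
with distinct eigenvalues. -/
def NoCM (f : Sg H J r → (X → ℂ) → ℂ) (K : Subfield ℂ) [NumberField K] (k : ℕ) (σ : ℝ) (x : X → ℂ) : Prop :=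
  ∀ᶠ T : ℝ in atTop, ∀ s : X → K, (∀ j, Y120.HtLe K T (s j)) → (∀ j, ‖x j - (s j : ℂ)‖ ≤ T ^ (-σ)) →
    ∀ M : Matrix H H (𝓞 K), SizeLe K M (T ^ k) → (cm K M).charpoly.Separable →
      ¬ Pres (fun y => f y fun j => (s j : ℂ)) (cm K M)

lemma htLe_mono (K : Type) [Field K] [NumberField K] {T T' : ℝ} (h : T ≤ T') {x : K} (hx : Y120.HtLe K T x) :
    Y120.HtLe K T' x := by
  obtain ⟨a, b, hb, h1, h2, h3⟩ := hx
  exact ⟨a, b, hb, h1.trans h, h2.trans h, h3⟩

lemma exc_mono (f : Sg H J r → (X → ℂ) → ℂ) {L L' : Set (X → ℂ)} (hL : L ⊆ L') (K : Type) [Field K] [NumberField K]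
    (io : K →+* ℂ) (Γ : Subgroup (GL H ℂ)) {a a' T T' : ℝ} (ha : 0 ≤ a) (haa : a ≤ a') (hT1 : 1 ≤ T) (hT : T ≤ T') :
    ExcEnd f L K io Γ a T ⊆ ExcEnd f L' K io Γ a' T' := by
  rintro s ⟨h1, h2, M, h3, h4, h5⟩
  refine ⟨fun j => htLe_mono K hT (h1 j), hL h2, M, fun i j φ => (h3 i j φ).trans ?_, h4, h5⟩
  calc T ^ a ≤ T' ^ a := Real.rpow_le_rpow (by linarith) hT ha
    _ ≤ T' ^ a' := Real.rpow_le_rpow_of_exponent_le (by linarith) haa

lemma innerM_mono (U : Set (X → ℂ)) {k k' : ℕ} (hk : 0 < k) (h : k ≤ k') : InnerM U k ⊆ InnerM U k' := by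
  rintro z ⟨h1, h2⟩
  have h3 : (k : ℝ) ≤ k' := by exact_mod_cast h
  have h4 : (0 : ℝ) < k := by exact_mod_cast hk
  exact ⟨h1.trans h3, (Metric.ball_subset_ball (inv_anti₀ h4 h3)).trans h2⟩

/-- the exceptional set for one field and one size -/
def Exc (f : Sg H J r → (X → ℂ) → ℂ) (U : Set (X → ℂ)) (Γ : Subgroup (GL H ℂ)) (K : Subfield ℂ) [NumberField K] (k l : ℕ) :
    Set (X → ℂ) :=
  {x | ¬ ∀ᶠ T : ℝ in atTop, ∀ s ∈ ExcEnd f (InnerM U k) K K.subtype Γ (k : ℝ) T,
    ¬ ∀ j, ‖x j - (s j : ℂ)‖ ≤ T ^ (-(1 / ((l : ℝ) + 1)))}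

theorem dim_exc (hX : Fintype.card X = 1) {U : Set (X → ℂ)} {f : Sg H J r → (X → ℂ) → ℂ}
    (hU : IsPreconnected U) (hUo : IsOpen U) (hne : U.Nonempty) (hf : ∀ i, AnalyticOnNhd ℂ (f i) U)
    (hreg : RegularM U f) (Γ : Subgroup (GL H ℂ)) (hΓ : ∀ γ ∈ Γ, MonInv U f (γ : Matrix H H ℂ))
    (K : Subfield ℂ) [NumberField K] (k l : ℕ) (hk : 0 < k) : dimH (Exc f U Γ K k l) = 0 := by
  classical
  refine le_antisymm ?_ bot_le
  obtain ⟨σ, hσ⟩ : ∃ σ : ℝ, σ = 1 / ((l : ℝ) + 1) := ⟨_, rfl⟩
  have hσ0 : 0 < σ := by rw [hσ]; positivity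
  obtain ⟨ω, T₀, hω, hmono, hT⟩ := BoundedEndomorphisms.result hU hUo hne hf hreg Γ hΓ
  have key : dimH (Exc f U Γ K k l) ≤ ENNReal.ofReal 0 := by
    refine Pool.Agent.N84.MD.dim_le_of_forall le_rfl fun D hD => ?_
    obtain ⟨ε, hε⟩ : ∃ ε : ℝ, ε = D * σ := ⟨_, rfl⟩
    have hε0 : 0 < ε := by rw [hε]; positivity
    obtain ⟨T₁, hT₁⟩ : ∃ T₁ : ℝ, ∀ T, T₁ ≤ T → T₀ ≤ T ∧ 1 ≤ T ∧ k ≤ ω T ∧ Module.finrank ℚ K ≤ ω T ∧
        1 / ε ≤ (ω T : ℝ) := by
      have h1 := hω.eventually_ge_atTop k
      have h2 := hω.eventually_ge_atTop (Module.finrank ℚ K)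
      have h3 := hω.eventually_ge_atTop ⌈1 / ε⌉₊
      obtain ⟨T₁, h⟩ := eventually_atTop.1 ((eventually_ge_atTop T₀).and ((eventually_ge_atTop (1 : ℝ)).and
        (h1.and (h2.and h3))))
      exact ⟨T₁, fun T hT => ⟨(h T hT).1, (h T hT).2.1, (h T hT).2.2.1, (h T hT).2.2.2.1,
        (Nat.le_ceil _).trans (by exact_mod_cast (h T hT).2.2.2.2)⟩⟩
    have h1 := Pool.Agent.U265.VH.scalesC (fun (s : X → K) j => ((s j : K) : ℂ))
      (fun T => ExcEnd f (InnerM U k) K K.subtype Γ (k : ℝ) T)
      (fun T => if T₁ ≤ T then ExcEnd f (InnerM U k) K K.subtype Γ (k : ℝ) T else ∅) (s := ε) (τ := σ) hε0.le hσ0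
      ⟨max T₁ 1, fun T T' h1 h2 _ => by
        rw [if_pos (((le_max_left _ _).trans h1).trans h2)]
        exact exc_mono f subset_rfl K K.subtype Γ (Nat.cast_nonneg _) le_rfl ((le_max_right _ _).trans h1) h2⟩
      ⟨1, fun T hT1 => by
        split_ifs with h
        · obtain ⟨g1, g2, g3, g4, g5⟩ := hT₁ T h
          obtain ⟨hω0, h2⟩ := hT T g1
          obtain ⟨-, h3, h4, -⟩ := h2 K g4 K.subtype
          have hsub : ExcEnd f (InnerM U k) K K.subtype Γ (k : ℝ) T ⊆
              ExcEnd f (InnerM U (ω T)) K K.subtype Γ (ω T : ℝ) T :=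
            exc_mono f (innerM_mono U hk g3) K K.subtype Γ (Nat.cast_nonneg _) (by exact_mod_cast g3) g2 le_rfl
          refine ⟨h3.subset hsub, ?_⟩
          have h5 : ((ExcEnd f (InnerM U k) K K.subtype Γ (k : ℝ) T).ncard : ℝ) ≤
              ((ExcEnd f (InnerM U (ω T)) K K.subtype Γ (ω T : ℝ) T).ncard : ℝ) := by
            exact_mod_cast Set.ncard_le_ncard hsub h3
          rw [hX, Nat.sub_self, pow_zero, mul_one] at h4
          rw [one_mul]
          refine (h5.trans h4).trans (Real.rpow_le_rpow_of_exponent_le g2 ?_)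
          have h6 : (0 : ℝ) < ω T := by exact_mod_cast hω0
          rw [inv_le_comm₀ h6 hε0, ← one_div]
          exact g5
        · refine ⟨Set.finite_empty, ?_⟩
          rw [Set.ncard_empty, Nat.cast_zero]
          exact mul_nonneg zero_le_one (Real.rpow_nonneg (by linarith) _)⟩
    have h2 : ε / σ = D := by rw [hε, mul_div_assoc, div_self hσ0.ne', mul_one]
    rw [h2, hσ] at h1
    exact h1
  rwa [ENNReal.ofReal_zero] at key

end

/-- **No special points of polynomial complexity near the points of a curve outside a set of Hausdorff dimension zero.** -/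
theorem result {X H J : Type} [Fintype X] [DecidableEq X] [Nonempty X] [Fintype H] [DecidableEq H] [Fintype J]
    [DecidableEq J] {r : J → ℕ} (hX : Fintype.card X = 1) {U : Set (X → ℂ)} {f : Sg H J r → (X → ℂ) → ℂ}
    (hU : IsPreconnected U) (hUo : IsOpen U) (hne : U.Nonempty) (hf : ∀ i, AnalyticOnNhd ℂ (f i) U)
    (hreg : RegularM U f) (Γ : Subgroup (GL H ℂ)) (hΓ : ∀ γ ∈ Γ, MonInv U f (γ : Matrix H H ℂ)) :
    ∃ E : Set (X → ℂ), dimH E = 0 ∧ ∀ x ∈ U, x ∉ E → ∀ (K : Subfield ℂ) [NumberField K] (k : ℕ) (σ : ℝ), 0 < σ →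
      OnlyGeneric f Γ K k σ x ∧
      (Infinite Γ → (∀ y ∈ U, (Stab Γ fun q => f q y).Finite) → NoCM f K k σ x) := by
  classical
  have hcount := Pool.Agent.U265.VH.countable_fields
  obtain ⟨E, hE⟩ : ∃ E : Set (X → ℂ), E = ⋃ (K : {K : Subfield ℂ // NumberField K}) (k : ℕ) (l : ℕ),
    (haveI := K.2; Exc f U Γ K.1 (k + 1) l) := ⟨_, rfl⟩
  refine ⟨E, ?_, fun x hx hxE K _ k σ hσ => ?_⟩
  · rw [hE]
    simp only [dimH_iUnion]
    refine le_antisymm (iSup_le fun K => iSup_le fun k => iSup_le fun l => ?_) bot_le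
    have := K.2
    exact (dim_exc hX hU hUo hne hf hreg Γ hΓ K.1 (k + 1) l (Nat.succ_pos k)).le
  · -- a neighbourhood of `x`
    obtain ⟨δ, hδ, hball⟩ := Metric.isOpen_iff.1 hUo x hx
    obtain ⟨k', hk'⟩ : ∃ k' : ℕ, k ≤ k' + 1 ∧ ‖x‖ + 1 ≤ ((k' + 1 : ℕ) : ℝ) ∧ (((k' + 1 : ℕ) : ℝ))⁻¹ ≤ δ / 2 := by
      obtain ⟨n, hn⟩ := exists_nat_ge (max (‖x‖ + 1) (2 / δ))
      refine ⟨max k n, by omega, ?_, ?_⟩
      · have h1 : (n : ℝ) ≤ ((max k n + 1 : ℕ) : ℝ) := by exact_mod_cast (le_max_right k n).trans (Nat.le_succ _)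
        exact ((le_max_left _ _).trans hn).trans h1
      · have h1 : (n : ℝ) ≤ ((max k n + 1 : ℕ) : ℝ) := by exact_mod_cast (le_max_right k n).trans (Nat.le_succ _)
        have h2 : 2 / δ ≤ ((max k n + 1 : ℕ) : ℝ) := ((le_max_right _ _).trans hn).trans h1
        rw [inv_le_comm₀ (by positivity) (by positivity)]
        rwa [inv_div]
    obtain ⟨hkk, hnx, hkδ⟩ := hk'
    obtain ⟨l, hl⟩ := exists_nat_one_div_lt hσ
    have h1 : x ∉ Exc f U Γ K (k' + 1) l := by
      intro h
      apply hxE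
      rw [hE]
      simp only [Set.mem_iUnion]
      exact ⟨⟨K, inferInstance⟩, k', l, h⟩
    unfold Exc at h1
    rw [Set.mem_ofPred_eq, not_not] at h1
    -- the points near `x` are in the inner set
    have h2 : ∀ᶠ T : ℝ in atTop, T ^ (-σ) ≤ min 1 (δ / 2) := by
      have h3 := tendsto_rpow_neg_atTop hσ
      exact (h3.eventually (gt_mem_nhds (show 0 < min 1 (δ / 2) by positivity))).mono fun T h => h.le
    have hin : ∀ T : ℝ, T ^ (-σ) ≤ min 1 (δ / 2) → ∀ s : X → K, (∀ j, ‖x j - (s j : ℂ)‖ ≤ T ^ (-σ)) →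
        (fun j => K.subtype (s j)) ∈ InnerM U (k' + 1) := by
      intro T hT s hs
      have h3 : dist x (fun j => ((s j : K) : ℂ)) ≤ min 1 (δ / 2) := by
        rw [dist_pi_le_iff (by positivity)]
        intro j
        rw [dist_eq_norm]
        exact (hs j).trans hT
      refine ⟨?_, ?_⟩
      · have h4 : ‖(fun j => ((s j : K) : ℂ))‖ ≤ ‖x‖ + dist x (fun j => ((s j : K) : ℂ)) := by
          rw [dist_eq_norm]
          have h5 := norm_sub_norm_le (fun j => ((s j : K) : ℂ)) x
          rw [norm_sub_rev] at h5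
          linarith
        have h5 := h3.trans (min_le_left _ _)
        exact (h4.trans (by linarith)).trans hnx
      · intro z hz
        apply hball
        rw [Metric.mem_ball] at hz ⊢
        have h4 : dist z (fun j => ((s j : K) : ℂ)) < δ / 2 := lt_of_lt_of_le hz hkδ
        have h5 := dist_triangle_right z x (fun j => ((s j : K) : ℂ))
        have h6 := h3.trans (min_le_right _ _)
        linarith
    have hfin : ∀ᶠ T : ℝ in atTop, ∀ s : X → K, (∀ j, Y120.HtLe K T (s j)) → (∀ j, ‖x j - (s j : ℂ)‖ ≤ T ^ (-σ)) →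
        ∀ M : Matrix H H (𝓞 K), SizeLe K M (T ^ k) → Pres (fun y => f y fun j => (s j : ℂ)) (cm K M) →
        ∀ γ ∈ Γ, Pres (act (γ : Matrix H H ℂ) fun y => f y fun j => (s j : ℂ)) (cm K M) := by
      filter_upwards [h1, h2, eventually_ge_atTop (1 : ℝ)] with T g1 g2 g3 s h3 h4 M h5 h6 γ hγ
      by_contra h7
      refine g1 s ⟨h3, hin T g2 s h4, M, fun i j φ => (h5 i j φ).trans ?_, h6, γ, hγ, h7⟩ fun j => (h4 j).trans ?_
      · rw [← Real.rpow_natCast]
        exact Real.rpow_le_rpow_of_exponent_le g3 (by exact_mod_cast hkk)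
      · exact Real.rpow_le_rpow_of_exponent_le g3 (by linarith)
    refine ⟨hfin, fun hinf hst => ?_⟩
    filter_upwards [hfin, h2] with T g1 g2 s h3 h4 M h5 h6 h7
    have hsU := innerM_sub U (Nat.succ_pos k') (hin T g2 s h4)
    obtain ⟨γ, hγ, h8⟩ := exists_not_pres Γ hinf (fun y => f y fun j => (s j : ℂ)) (hst _ hsU) (cm K M) h6
    exact h8 (g1 s h3 h4 M h5 h7 γ hγ)

end Pool.Agent.Results.MP_2794d1_ag.SpecialPointsNearAPoint
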